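import Mathlib

/-!
Combinatorial core for the covering problem: one residue class per prime.
-/

namespace Pool.Agent.H435R2.GreenCore

open Finset

/-- Cauchy-Schwarz for fibres: pairs `(z,m)` with `f z = g m`. -/
lemma card_pairs_le {α β : Type*} [DecidableEq β] [Fintype β] (S : Finset α)
    (f g : α → β) :
    2 * #((S ×ˢ S).filter (fun q => f q.1 = g q.2)) ≤
      #((S ×ˢ S).filter (fun q => f q.1 = f q.2)) + #((S ×ˢ S).filter (fun q => g q.1 = g q.2)) := by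
  classical
  have key : ∀ u v : α → β, #((S ×ˢ S).filter (fun q => u q.1 = v q.2)) =
      ∑ c : β, #(S.filter (fun x => u x = c)) * #(S.filter (fun x => v x = c)) := by
    intro u v
    rw [Finset.card_eq_sum_card_fiberwise (f := fun q : α × α => u q.1) (t := Finset.univ)
      (by intro x _; simp)]
    refine Finset.sum_congr rfl ?_
    intro c _
    rw [← Finset.card_product]
    congr 1
    ext q
    simp only [mem_filter, mem_product]
    constructor
    · rintro ⟨⟨⟨h1, h2⟩, h3⟩, h4⟩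
      exact ⟨⟨h1, h4⟩, h2, by rw [← h3, h4]⟩
    · rintro ⟨⟨h1, h2⟩, h3, h4⟩
      exact ⟨⟨⟨h1, h3⟩, by rw [h2, h4]⟩, h2⟩
  rw [key f g, key f f, key g g, ← Finset.sum_add_distrib, Finset.mul_sum]
  refine Finset.sum_le_sum ?_
  intro c _
  nlinarith [sq_nonneg ((#(S.filter (fun x => f x = c)) : ℤ) - #(S.filter (fun x => g x = c))),
    two_mul_le_add_sq (#(S.filter (fun x => f x = c))) (#(S.filter (fun x => g x = c)))]

variable (N : ℕ) (Q : Finset ℕ) (a : ℕ → ℤ)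

/-- the chosen class modulo `p` inside `[1,N]` -/
noncomputable def line (p : ℕ) : Finset ℤ := (Icc (1:ℤ) N).filter (fun n => (p:ℤ) ∣ n - a p)

/-- the covered set -/
noncomputable def cov : Finset ℤ := Q.biUnion (line N a)

/-- multiplicity -/
noncomputable def mult (x : ℤ) : ℕ := #(Q.filter (fun q => x ∈ line N a q))

/-- pairs congruent mod p -/
noncomputable def par (p : ℕ) : Finset (ℤ × ℤ) :=
  ((cov N Q a) ×ˢ (cov N Q a)).filter (fun q => (p:ℤ) ∣ q.1 - q.2)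

/-- flags over the stem p -/
noncomputable def flag (p : ℕ) : Finset (ℤ × ℤ) :=
  ((line N a p) ×ˢ (cov N Q a)).filter (fun q => (2:ℤ) ∣ q.1 + q.2 ∧ (q.1 + q.2) / 2 ∈ cov N Q a)

lemma flag_le (p : ℕ) (hp : p.Prime) (hp2 : p ≠ 2) : #(flag N Q a p) ≤ #(par N Q a p) := by
  classical
  have : Fact p.Prime := ⟨hp⟩
  have hinv : (2 : ZMod p) ≠ 0 := by
    intro h
    have : ((2:ℕ) : ZMod p) = 0 := by exact_mod_cast h
    rw [ZMod.natCast_eq_zero_iff] at this
    exact hp2 ((Nat.prime_dvd_prime_iff_eq hp Nat.prime_two).1 this)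
  set S := cov N Q a with hS
  have h := card_pairs_le (β := ZMod p) S (fun z : ℤ => (a p : ZMod p) + (z : ZMod p))
    (fun m : ℤ => 2 * (m : ZMod p))
  have hdvd : ∀ x y : ℤ, ((x : ZMod p) = (y : ZMod p)) ↔ (p:ℤ) ∣ x - y := by
    intro x y
    rw [← sub_eq_zero, ← Int.cast_sub, ZMod.intCast_zmod_eq_zero_iff_dvd]
  have e1 : (S ×ˢ S).filter (fun q => (a p : ZMod p) + (q.1 : ZMod p) = (a p : ZMod p) + (q.2 : ZMod p))
      = par N Q a p := by
    unfold par
    refine Finset.filter_congr ?_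
    intro q _
    rw [add_right_inj, hdvd]
  have e2 : (S ×ˢ S).filter (fun q => 2 * (q.1 : ZMod p) = 2 * (q.2 : ZMod p))
      = par N Q a p := by
    unfold par
    refine Finset.filter_congr ?_
    intro q _
    rw [mul_right_inj' hinv, hdvd]
  simp only [e1, e2] at h
  have h3 : #(flag N Q a p) ≤ #((S ×ˢ S).filter
      (fun q => (a p : ZMod p) + (q.1 : ZMod p) = 2 * (q.2 : ZMod p))) := by
    refine Finset.card_le_card_of_injOn (fun q => (q.2, (q.1 + q.2) / 2)) ?_ ?_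
    · intro q hq
      have hq' := Finset.mem_coe.1 hq
      unfold flag at hq'
      rw [mem_filter, mem_product] at hq'
      obtain ⟨⟨h1, h2⟩, h3, h4⟩ := hq'
      rw [Finset.mem_coe, mem_filter, mem_product]
      refine ⟨⟨h2, h4⟩, ?_⟩
      obtain ⟨k, hk⟩ := h3
      have hk2 : (q.1 + q.2) / 2 = k := by omega
      simp only [hk2]
      have h5 : (p:ℤ) ∣ q.1 - a p := by
        unfold line at h1
        exact (mem_filter.1 h1).2
      have h6 : ((q.1 : ℤ) : ZMod p) = (a p : ZMod p) := (hdvd _ _).2 h5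
      have h7 : ((q.1 + q.2 : ℤ) : ZMod p) = ((2 * k : ℤ) : ZMod p) := by rw [hk]
      push_cast at h7
      rw [← h6, h7]
    · intro q hq q' hq' hqq
      have h1 := Finset.mem_coe.1 hq
      have h2 := Finset.mem_coe.1 hq'
      unfold flag at h1 h2
      rw [mem_filter, mem_product] at h1 h2
      obtain ⟨-, ⟨k, hk⟩, -⟩ := h1
      obtain ⟨-, ⟨k', hk'⟩, -⟩ := h2
      simp only [Prod.mk.injEq] at hqq
      obtain ⟨e3, e4⟩ := hqq
      ext
      · omega
      · exact e3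
  omega

lemma sum_par_le (hpq : ∀ p ∈ Q, ∀ q ∈ Q, p ≠ q → N ≤ p * q) (hpr : ∀ p ∈ Q, p.Prime) :
    ∑ p ∈ Q, #(par N Q a p) ≤ #(cov N Q a) * (#(cov N Q a) + #Q) := by
  classical
  set S := cov N Q a with hS
  have hsplit : ∀ p ∈ Q, #(par N Q a p) ≤ #S + #(((S ×ˢ S).filter (fun q => q.1 ≠ q.2)).filter
      (fun q => (p:ℤ) ∣ q.1 - q.2)) := by
    intro p _
    have : par N Q a p ⊆ (S.image (fun x => (x, x))) ∪ (((S ×ˢ S).filter (fun q => q.1 ≠ q.2)).filter
      (fun q => (p:ℤ) ∣ q.1 - q.2)) := by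
      intro q hq
      unfold par at hq
      rw [mem_filter, mem_product] at hq
      obtain ⟨⟨h1, h2⟩, h3⟩ := hq
      by_cases h : q.1 = q.2
      · rw [mem_union]
        left
        rw [mem_image]
        exact ⟨q.1, h1, by ext <;> simp [h]⟩
      · rw [mem_union]
        right
        rw [mem_filter, mem_filter, mem_product]
        exact ⟨⟨⟨h1, h2⟩, h⟩, h3⟩
    calc #(par N Q a p) ≤ _ := card_le_card this
      _ ≤ _ := card_union_le _ _
      _ ≤ _ := by gcongr; exact card_image_le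
  have hoff : ∑ p ∈ Q, #(((S ×ˢ S).filter (fun q => q.1 ≠ q.2)).filter
      (fun q => (p:ℤ) ∣ q.1 - q.2)) ≤ #((S ×ˢ S).filter (fun q => q.1 ≠ q.2)) := by
    simp_rw [Finset.card_filter (fun q : ℤ × ℤ => _ ∣ q.1 - q.2)]
    rw [Finset.sum_comm, Finset.card_eq_sum_ones]
    refine Finset.sum_le_sum ?_
    intro q hq
    rw [← Finset.card_filter]
    rw [Finset.card_le_one]
    intro p hp p' hp'
    rw [mem_filter] at hp hp'
    by_contra hne
    rw [mem_filter, mem_product] at hq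
    obtain ⟨⟨h1, h2⟩, h3⟩ := hq
    have hrange : ∀ x ∈ S, 1 ≤ x ∧ x ≤ N := by
      intro x hx
      rw [hS] at hx
      unfold cov at hx
      rw [mem_biUnion] at hx
      obtain ⟨r, _, hr⟩ := hx
      unfold line at hr
      rw [mem_filter, mem_Icc] at hr
      exact hr.1
    have r1 := hrange _ h1
    have r2 := hrange _ h2
    have hcop : IsCoprime (p:ℤ) (p':ℤ) := by
      rw [Nat.isCoprime_iff_coprime]
      exact (Nat.coprime_primes (hpr p hp.1) (hpr p' hp'.1)).2 hne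
    have hd : ((p:ℤ) * p') ∣ q.1 - q.2 := hcop.mul_dvd hp.2 hp'.2
    have hle := Int.le_of_dvd (a := (p:ℤ) * p') (b := |q.1 - q.2|) (by
      rw [abs_pos]; exact sub_ne_zero.2 h3) ((dvd_abs _ _).2 hd)
    have hlt : |q.1 - q.2| < N := by
      rw [abs_lt]
      omega
    have hN := hpq p hp.1 p' hp'.1 hne
    have : (N:ℤ) ≤ (p:ℤ) * p' := by exact_mod_cast hN
    omega
  calc ∑ p ∈ Q, #(par N Q a p) ≤ ∑ p ∈ Q, (#S + #(((S ×ˢ S).filter (fun q => q.1 ≠ q.2)).filter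
      (fun q => (p:ℤ) ∣ q.1 - q.2))) := Finset.sum_le_sum hsplit
    _ = #Q * #S + ∑ p ∈ Q, #(((S ×ˢ S).filter (fun q => q.1 ≠ q.2)).filter
      (fun q => (p:ℤ) ∣ q.1 - q.2)) := by rw [Finset.sum_add_distrib]; simp
    _ ≤ #Q * #S + #(S ×ˢ S) := by
      gcongr
      exact hoff.trans (card_filter_le _ _)
    _ = #S * (#S + #Q) := by rw [card_product]; ring

/-- If `x` lies on `r` lines, then there are at least `B r` flags at `x`. -/
lemma flags_at (B : ℕ) (hpr : ∀ p ∈ Q, p.Prime)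
    (hpq : ∀ p ∈ Q, ∀ q ∈ Q, p ≠ q → N ≤ p * q)
    (hB : ∀ q ∈ Q, ∀ x ∈ Icc (1:ℤ) N,
      B ≤ #((Icc (1:ℤ) N).filter (fun z => z ≠ x ∧ (2 * q : ℤ) ∣ z - x)))
    (x : ℤ) (hx : x ∈ Icc (1:ℤ) N) :
    B * mult N Q a x ≤ #((cov N Q a).filter (fun z => (2:ℤ) ∣ x + z ∧ (x + z) / 2 ∈ cov N Q a)) := by
  classical
  set R := Q.filter (fun q => x ∈ line N a q) with hR
  set D : ℕ → Finset ℤ := fun q => (Icc (1:ℤ) N).filter (fun z => z ≠ x ∧ (2 * q : ℤ) ∣ z - x) with hD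
  have hdisj : (R : Set ℕ).PairwiseDisjoint D := by
    intro q hq q' hq' hne
    rw [Function.onFun, Finset.disjoint_left]
    intro z hz hz'
    rw [hD, mem_filter, mem_Icc] at hz hz'
    have hq1 := (mem_filter.1 (Finset.mem_coe.1 hq)).1
    have hq2 := (mem_filter.1 (Finset.mem_coe.1 hq')).1
    have hcop : IsCoprime (q:ℤ) (q':ℤ) := by
      rw [Nat.isCoprime_iff_coprime]
      exact (Nat.coprime_primes (hpr q hq1) (hpr q' hq2)).2 hne
    have hd : ((q:ℤ) * q') ∣ z - x :=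
      hcop.mul_dvd ((Dvd.intro_left _ rfl).trans hz.2.2) ((Dvd.intro_left _ rfl).trans hz'.2.2)
    rw [mem_Icc] at hx
    have hle := Int.le_of_dvd (a := (q:ℤ) * q') (b := |z - x|) (by
      rw [abs_pos]; exact sub_ne_zero.2 hz.2.1) ((dvd_abs _ _).2 hd)
    have hlt : |z - x| < N := by
      rw [abs_lt]
      omega
    have hN := hpq q hq1 q' hq2 hne
    have : (N:ℤ) ≤ (q:ℤ) * q' := by exact_mod_cast hN
    omega
  have hsub : R.biUnion D ⊆ (cov N Q a).filter (fun z => (2:ℤ) ∣ x + z ∧ (x + z) / 2 ∈ cov N Q a) := by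
    intro z hz
    rw [mem_biUnion] at hz
    obtain ⟨q, hq, hz⟩ := hz
    rw [hD, mem_filter, mem_Icc] at hz
    obtain ⟨⟨hz1, hz2⟩, hz3, ⟨k, hk⟩⟩ := hz
    have hqQ := (mem_filter.1 hq).1
    have hxq := (mem_filter.1 hq).2
    unfold line at hxq
    rw [mem_filter, mem_Icc] at hxq
    obtain ⟨⟨hx1, hx2⟩, ⟨j, hj⟩⟩ := hxq
    rw [mem_filter]
    have hmid : (x + z) / 2 = x + q * k := by
      have : x + z = 2 * (x + q * k) := by linarith
      rw [this]
      exact Int.mul_ediv_cancel_left _ (by norm_num)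
    refine ⟨?_, ⟨x + q * k, by linarith⟩, ?_⟩
    · unfold cov
      rw [mem_biUnion]
      refine ⟨q, hqQ, ?_⟩
      unfold line
      rw [mem_filter, mem_Icc]
      exact ⟨⟨hz1, hz2⟩, ⟨j + 2 * k, by linarith⟩⟩
    · rw [hmid]
      unfold cov
      rw [mem_biUnion]
      refine ⟨q, hqQ, ?_⟩
      unfold line
      rw [mem_filter, mem_Icc]
      refine ⟨⟨by linarith, by linarith⟩, ⟨j + k, by linarith⟩⟩
  calc B * mult N Q a x = ∑ q ∈ R, B := by
        rw [Finset.sum_const, smul_eq_mul, mul_comm]; rfl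
    _ ≤ ∑ q ∈ R, #(D q) := Finset.sum_le_sum (fun q hq => hB q (mem_filter.1 hq).1 x hx)
    _ = #(R.biUnion D) := (Finset.card_biUnion (fun q hq q' hq' hne => hdisj hq hq' hne)).symm
    _ ≤ _ := card_le_card hsub

lemma sum_flag_ge (B : ℕ) (hpr : ∀ p ∈ Q, p.Prime)
    (hpq : ∀ p ∈ Q, ∀ q ∈ Q, p ≠ q → N ≤ p * q)
    (hB : ∀ q ∈ Q, ∀ x ∈ Icc (1:ℤ) N,
      B ≤ #((Icc (1:ℤ) N).filter (fun z => z ≠ x ∧ (2 * q : ℤ) ∣ z - x))) :
    B * ∑ x ∈ cov N Q a, mult N Q a x ^ 2 ≤ ∑ p ∈ Q, #(flag N Q a p) := by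
  classical
  have h1 : ∀ p ∈ Q, ∑ x ∈ line N a p, B * mult N Q a x ≤ #(flag N Q a p) := by
    intro p hp
    have e : #(flag N Q a p) = ∑ x ∈ line N a p,
        #((cov N Q a).filter (fun z => (2:ℤ) ∣ x + z ∧ (x + z) / 2 ∈ cov N Q a)) := by
      unfold flag
      rw [Finset.card_filter, Finset.sum_product]
      refine Finset.sum_congr rfl ?_
      intro x _
      rw [Finset.card_filter]
    rw [e]
    refine Finset.sum_le_sum ?_
    intro x hx
    refine flags_at N Q a B hpr hpq hB x ?_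
    unfold line at hx
    exact (mem_filter.1 hx).1
  have h2' : ∑ p ∈ Q, ∑ x ∈ line N a p, B * mult N Q a x = B * ∑ x ∈ cov N Q a, mult N Q a x ^ 2 := by
    have e1 : ∀ p ∈ Q, ∑ x ∈ line N a p, B * mult N Q a x =
        ∑ x ∈ cov N Q a, if x ∈ line N a p then B * mult N Q a x else 0 := by
      intro p hp
      rw [← Finset.sum_filter]
      refine Finset.sum_congr ?_ (fun _ _ => rfl)
      ext x
      rw [mem_filter]
      constructor
      · intro h
        exact ⟨by unfold cov; rw [mem_biUnion]; exact ⟨p, hp, h⟩, h⟩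
      · intro h
        exact h.2
    rw [Finset.sum_congr rfl e1, Finset.sum_comm, Finset.mul_sum]
    refine Finset.sum_congr rfl ?_
    intro x _
    rw [← Finset.sum_filter, Finset.sum_const, smul_eq_mul]
    unfold mult
    ring
  rw [← h2']
  exact Finset.sum_le_sum h1

lemma sum_mult (A : ℕ) (hA : ∀ p ∈ Q, A ≤ #(line N a p)) :
    #Q * A ≤ ∑ x ∈ cov N Q a, mult N Q a x := by
  classical
  have e : ∑ x ∈ cov N Q a, mult N Q a x = ∑ p ∈ Q, #(line N a p) := by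
    unfold mult
    simp_rw [Finset.card_filter]
    rw [Finset.sum_comm]
    refine Finset.sum_congr rfl ?_
    intro p hp
    rw [← Finset.card_filter]
    congr 1
    ext x
    rw [mem_filter]
    constructor
    · exact fun h => h.2
    · intro h
      exact ⟨by unfold cov; rw [mem_biUnion]; exact ⟨p, hp, h⟩, h⟩
  rw [e, ← smul_eq_mul, ← Finset.sum_const]
  exact Finset.sum_le_sum hA

/-- The main combinatorial inequality. -/
theorem main (A B : ℕ) (hpr : ∀ p ∈ Q, p.Prime) (h2 : ∀ p ∈ Q, p ≠ 2)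
    (hpq : ∀ p ∈ Q, ∀ q ∈ Q, p ≠ q → N ≤ p * q)
    (hA : ∀ p ∈ Q, A ≤ #(line N a p))
    (hB : ∀ q ∈ Q, ∀ x ∈ Icc (1:ℤ) N,
      B ≤ #((Icc (1:ℤ) N).filter (fun z => z ≠ x ∧ (2 * q : ℤ) ∣ z - x))) :
    B * (#Q * A) ^ 2 ≤ #(cov N Q a) ^ 2 * (#(cov N Q a) + #Q) := by
  have h1 := sum_flag_ge N Q a B hpr hpq hB
  have h3 : ∑ p ∈ Q, #(flag N Q a p) ≤ ∑ p ∈ Q, #(par N Q a p) :=
    Finset.sum_le_sum (fun p hp => flag_le N Q a p (hpr p hp) (h2 p hp))
  have h4 := sum_par_le N Q a hpq hpr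
  have h5 := sum_mult N Q a A hA
  have h6 : (∑ x ∈ cov N Q a, mult N Q a x) ^ 2 ≤ #(cov N Q a) * ∑ x ∈ cov N Q a, mult N Q a x ^ 2 :=
    sq_sum_le_card_mul_sum_sq
  calc B * (#Q * A) ^ 2 ≤ B * (∑ x ∈ cov N Q a, mult N Q a x) ^ 2 := by gcongr
    _ ≤ B * (#(cov N Q a) * ∑ x ∈ cov N Q a, mult N Q a x ^ 2) := by gcongr
    _ = #(cov N Q a) * (B * ∑ x ∈ cov N Q a, mult N Q a x ^ 2) := by ring
    _ ≤ #(cov N Q a) * (#(cov N Q a) * (#(cov N Q a) + #Q)) :=
      Nat.mul_le_mul_left _ (h1.trans (h3.trans h4))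
    _ = _ := by ring

end Pool.Agent.H435R2.GreenCore
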